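import Mathlib
import Pool.Agent.MP_8e55f0_lc.Mg.Final

/-! Extendability of finite two-dimensional words to rich planes is undecidable. -/

namespace Pool.Agent.Results.MP_8e55f0_lc.Undecidable

open Pool.Agent.MP_8e55f0_lc

theorem result : ¬ ∃ f : List ((ℤ × ℤ) × ℕ) →. Bool, Partrec f ∧
    ∀ w : List ((ℤ × ℤ) × ℕ), (w.map Prod.fst).Nodup → ∃ b ∈ f w, (b = true ↔ Extendable w) :=
  undecidable

end Pool.Agent.Results.MP_8e55f0_lc.Undecidable
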